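import Pool.Agent.L0h58.HY.Stm

/-!
# Project HY, module EXPL: the explicit function contains the functions given by the block Hankel matrices
-/

set_option autoImplicit false
set_option linter.all false

namespace Pool.Agent.L0h2.HY

open Finset Pool.Agent.L0h58.HY
open Pool.Agent.L0h32.LT (Inp)
open Pool.Agent.L0h32.LT2 (qf blk)
open Pool.Agent.L0h58.HX (bit bv)

section generic

variable {F : Type} [Field F] (θ a : F) (n ρ : ℕ) (b : ℕ → Bool)

theorem ac_sum (c : ℕ) : ∀ i, ac θ a n ρ b c i =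
    ∑ j ∈ range i, ch θ n ρ b j 12 * wn θ a n ρ b c (j + 1) := by
  intro i
  induction i with
  | zero => rfl
  | succ i ih =>
    rw [sum_range_succ, ← ih]
    rfl

variable {θ a n ρ b}

/-- the windows of the special inputs -/
theorem wn_special (h2 : ∀ z : F, z + z = 0) {c K : ℕ} (q : ℕ → F) (hP : pa a n b = a ^ K)
    (hnew : ∀ i < n, ch θ n ρ b i c = q i)
    (hold : ∀ i < n, ch θ n ρ b i (6 + c) = if K ≤ i then q (i - K) else 0) :
    ∀ i ≤ n, wn θ a n ρ b c i = ∑ d ∈ range (min K i), a ^ d * q (i - 1 - d) := by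
  intro i
  induction i with
  | zero =>
    intro _
    rw [Nat.min_zero, sum_range_zero]
    rfl
  | succ i ih =>
    intro hi
    have e0 : wn θ a n ρ b c (i + 1) = a * wn θ a n ρ b c i + ch θ n ρ b i c +
        ch θ n ρ b i (6 + c) * pa a n b := rfl
    rw [e0, ih (by omega), hnew i (by omega), hold i (by omega), hP]
    have e1 : ∀ m, a * ∑ d ∈ range m, a ^ d * q (i - 1 - d) + q i =
        ∑ d ∈ range (m + 1), a ^ d * q (i + 1 - 1 - d) := by
      intro m
      rw [sum_range_succ', mul_sum]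
      congr 1
      · apply sum_congr rfl
        intro d _
        have e2 : i + 1 - 1 - (d + 1) = i - 1 - d := by omega
        rw [e2, pow_succ]
        ring
      · simp
    rw [e1]
    by_cases hK : K ≤ i
    · have e3 : min K i = K := by omega
      have e4 : min K (i + 1) = K := by omega
      rw [e3, e4, sum_range_succ, if_pos hK]
      have e5 : i + 1 - 1 - K = i - K := by omega
      rw [e5, add_assoc, mul_comm (q (i - K)), h2, add_zero]
    · have e3 : min K i = i := by omega
      have e4 : min K (i + 1) = i + 1 := by omega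
      rw [e3, e4, if_neg hK, zero_mul, add_zero]

theorem sum_blocks (f : ℕ → F) (η : ℕ) : ∀ m : ℕ, ∑ k ∈ range (m * η), f k =
    ∑ i ∈ range m, ∑ j ∈ range η, f (i * η + j) := by
  intro m
  induction m with
  | zero => simp
  | succ m ih =>
    rw [Nat.add_mul, Nat.one_mul, sum_range_add, ih, sum_range_succ]

end generic

section coords

variable {F : Type} [Field F] [Algebra (ZMod 2) F] {ρ : ℕ}

/-- the coordinates as bits -/
def cf (e : (Fin ρ → ZMod 2) ≃ₗ[ZMod 2] F) (z : F) (j : ℕ) : Bool :=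
  if h : j < ρ then decide (e.symm z ⟨j, h⟩ = 1) else false

theorem two_zero (z : F) : z + z = 0 := by
  have h1 : ((1 : ZMod 2) + 1) • z = z + z := by rw [add_smul, one_smul]
  have h3 : (1 : ZMod 2) + 1 = 0 := by decide
  rw [← h1, h3, zero_smul]

theorem cf_sum {e : (Fin ρ → ZMod 2) ≃ₗ[ZMod 2] F} {θ : F} (hb : PowBasis e θ) (z : F) :
    ∑ j ∈ range ρ, bv (cf e z j) * θ ^ j = z := by
  have h1 := hb (e.symm z)
  rw [LinearEquiv.apply_symm_apply] at h1
  rw [sum_range]
  refine Eq.trans (sum_congr rfl ?_) h1.symm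
  intro j _
  unfold cf
  rw [dif_pos j.isLt]
  have h : ∀ v : ZMod 2, v = 0 ∨ v = 1 := by decide
  have e0 : (⟨(j : ℕ), j.isLt⟩ : Fin ρ) = j := rfl
  rw [e0]
  rcases h (e.symm z j) with h | h
  · rw [h, decide_eq_false (by decide), zero_smul]
    show (0 : F) * _ = 0
    rw [zero_mul]
  · rw [h, decide_eq_true rfl, one_smul]
    show (1 : F) * _ = _
    rw [one_mul]

end coords

section fn

variable {F : Type} [Field F] [Algebra (ZMod 2) F]

/-- the variables -/
def srcY (n ρ n₂ η K : ℕ) (p : ℕ) : Option (Fin (n₂ * η)) :=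
  if n ≤ p ∧ (p - n) / ρ % 13 = 12 ∧ K ≤ (p - n) / ρ / 13 ∧ (p - n) / ρ / 13 - K < n₂ ∧
      (p - n) % ρ < η then
    (if h : ((p - n) / ρ / 13 - K) * η + (p - n) % ρ < n₂ * η then
      some ⟨((p - n) / ρ / 13 - K) * η + (p - n) % ρ, h⟩ else none)
  else none

/-- the constants -/
def cstY {ρ : ℕ} (e : (Fin ρ → ZMod 2) ≃ₗ[ZMod 2] F) (S : ℕ → F) (n K : ℕ) (p : ℕ) : Bool :=
  if p < n then decide (p = K)
  else if (p - n) / ρ % 13 < 6 then
    cf e (S ((p - n) / ρ % 13 * K + (p - n) / ρ / 13 - 1)) ((p - n) % ρ)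
  else if (p - n) / ρ % 13 < 12 then decide (K ≤ (p - n) / ρ / 13) &&
    cf e (S (((p - n) / ρ % 13 - 6) * K + ((p - n) / ρ / 13 - K) - 1)) ((p - n) % ρ)
  else false

end fn

theorem bit_lt {N nn : ℕ} {src : ℕ → Option (Fin nn)} {cst : ℕ → Bool} {x : Inp nn} {j : ℕ}
    (hj : j < N) : bit (Pool.Agent.L0h58.HX.ext src cst x : Inp N) j =
      match src j with
      | some j => x j
      | none => cst j := by
  unfold bit
  rw [dif_pos hj]
  rfl

theorem bit_some {N nn : ℕ} {src : ℕ → Option (Fin nn)} {cst : ℕ → Bool} {x : Inp nn} {j : ℕ}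
    (hj : j < N) {k : Fin nn} (hs : src j = some k) :
    bit (Pool.Agent.L0h58.HX.ext src cst x : Inp N) j = x k := by
  rw [bit_lt hj, hs]

theorem bit_none {N nn : ℕ} {src : ℕ → Option (Fin nn)} {cst : ℕ → Bool} {x : Inp nn} {j : ℕ}
    (hj : j < N) (hs : src j = none) :
    bit (Pool.Agent.L0h58.HX.ext src cst x : Inp N) j = cst j := by
  rw [bit_lt hj, hs]

theorem t_EXPL : S_EXPL := by
  intro N g n n₂ η K F _ _ _ e θ hpb hK1 hη1 hηρ hn₂ hKn hN S
  obtain ⟨ρ, hρ⟩ : ∃ ρ, ρ = 2 * g := ⟨_, rfl⟩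
  rw [← hρ] at hηρ
  have hρ0 : 0 < ρ := by omega
  refine ⟨srcY n (2 * g) n₂ η K, cstY e S n K, fun x a => ?_⟩
  subst hρ
  obtain ⟨b, hb⟩ : ∃ b, b = bit (Pool.Agent.L0h58.HX.ext (srcY n (2 * g) n₂ η K) (cstY e S n K) x :
    Inp N) := ⟨_, rfl⟩
  rw [← hb]
  have hNn : n + 13 * n * (2 * g) ≤ N := by
    have : n + 13 * n * (2 * g) = n * (26 * g + 1) := by ring
    rw [this]
    exact hN
  have hpos : ∀ i < n, ∀ τ < 13, ∀ j < 2 * g, n + (13 * i + τ) * (2 * g) + j < N := by
    intro i hi τ hτ j hj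
    have h1 : 13 * i + τ + 1 ≤ 13 * n := by omega
    have h2 : (13 * i + τ + 1) * (2 * g) ≤ 13 * n * (2 * g) := Nat.mul_le_mul_right _ h1
    have h3 : (13 * i + τ + 1) * (2 * g) = (13 * i + τ) * (2 * g) + 2 * g := by ring
    omega
  have hsub : ∀ i τ j, n + (13 * i + τ) * (2 * g) + j - n = (13 * i + τ) * (2 * g) + j := by
    intro i τ j
    omega
  have hq : ∀ i τ j, j < 2 * g → ((13 * i + τ) * (2 * g) + j) / (2 * g) = 13 * i + τ := by
    intro i τ j hj
    rw [Nat.add_comm, Nat.add_mul_div_right _ _ hρ0, Nat.div_eq_of_lt hj, Nat.zero_add]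
  have hr : ∀ i τ j, j < 2 * g → ((13 * i + τ) * (2 * g) + j) % (2 * g) = j := by
    intro i τ j hj
    rw [Nat.add_comm, Nat.add_mul_mod_self_right, Nat.mod_eq_of_lt hj]
  have d1 : ∀ i τ, τ < 13 → (13 * i + τ) / 13 = i := by
    intro i τ hτ
    omega
  have d2 : ∀ i τ, τ < 13 → (13 * i + τ) % 13 = τ := by
    intro i τ hτ
    omega
  -- the bits
  have hb0 : ∀ i < n, b i = decide (i = K) := by
    intro i hi
    rw [hb, bit_none (by
      have h1 : n ≤ N := by omega
      omega)]
    · unfold cstY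
      rw [if_pos hi]
    · unfold srcY
      rw [if_neg (by omega)]
  have hb1 : ∀ c < 6, ∀ i < n, ∀ j < 2 * g, b (n + (13 * i + c) * (2 * g) + j) =
      cf e (S (c * K + i - 1)) j := by
    intro c hc i hi j hj
    rw [hb, bit_none (hpos i hi c (by omega) j hj)]
    · unfold cstY
      rw [if_neg (by omega), hsub, hq i c j hj, hr i c j hj, d1 i c (by omega), d2 i c (by omega),
        if_pos hc]
    · unfold srcY
      rw [if_neg]
      rintro ⟨-, h1, -⟩
      rw [hsub, hq i c j hj, d2 i c (by omega)] at h1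
      omega
  have hb2 : ∀ c < 6, ∀ i < n, ∀ j < 2 * g, b (n + (13 * i + (6 + c)) * (2 * g) + j) =
      (decide (K ≤ i) && cf e (S (c * K + (i - K) - 1)) j) := by
    intro c hc i hi j hj
    rw [hb, bit_none (hpos i hi (6 + c) (by omega) j hj)]
    · unfold cstY
      have e2 : 6 + c - 6 = c := by omega
      rw [if_neg (by omega), hsub, hq i (6 + c) j hj, hr i (6 + c) j hj, d1 i (6 + c) (by omega),
        d2 i (6 + c) (by omega), if_neg (by omega), if_pos (by omega), e2]
    · unfold srcY
      rw [if_neg]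
      rintro ⟨-, h1, -⟩
      rw [hsub, hq i (6 + c) j hj, d2 i (6 + c) (by omega)] at h1
      omega
  have hb3 : ∀ i < n, ∀ j < 2 * g, b (n + (13 * i + 12) * (2 * g) + j) =
      if K ≤ i ∧ i - K < n₂ ∧ j < η then bit x ((i - K) * η + j) else false := by
    intro i hi j hj
    by_cases h : K ≤ i ∧ i - K < n₂ ∧ j < η
    · have h1 : (i - K) * η + j < n₂ * η := by
        have h2 : (i - K + 1) * η ≤ n₂ * η := Nat.mul_le_mul_right _ (by omega)
        have h3 : (i - K + 1) * η = (i - K) * η + η := by ring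
        omega
      have h4 : srcY n (2 * g) n₂ η K (n + (13 * i + 12) * (2 * g) + j) =
          some ⟨(i - K) * η + j, h1⟩ := by
        unfold srcY
        rw [hsub, hq i 12 j hj, hr i 12 j hj]
        have e1 := d1 i 12 (by omega)
        have e2 := d2 i 12 (by omega)
        rw [if_pos ⟨by omega, e2, by rw [e1]; exact h.1, by rw [e1]; exact h.2.1, h.2.2⟩]
        simp only [e1]
        rw [dif_pos h1]
      rw [if_pos h, hb, bit_some (hpos i hi 12 (by omega) j hj) h4]
      unfold bit
      rw [dif_pos h1]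
    · rw [if_neg h, hb, bit_none (hpos i hi 12 (by omega) j hj)]
      · unfold cstY
        rw [if_neg (by omega), hsub, hq i 12 j hj, d2 i 12 (by omega), if_neg (by omega),
          if_neg (by omega)]
      · unfold srcY
        rw [if_neg]
        rintro ⟨-, -, h1, h2, h3⟩
        rw [hsub, hq i 12 j hj, d1 i 12 (by omega)] at h1 h2
        rw [hsub, hr i 12 j hj] at h3
        exact h ⟨h1, h2, h3⟩
  -- the characters
  have hP : pa a n b = a ^ K := by
    unfold pa
    rw [sum_eq_single_of_mem K (mem_range.2 (by omega)) (by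
      intro i hi hne
      rw [hb0 i (mem_range.1 hi), decide_eq_false hne]
      show (0 : F) * _ = 0
      rw [zero_mul])]
    rw [hb0 K (by omega), decide_eq_true rfl]
    show (1 : F) * _ = _
    rw [one_mul]
  have hc1 : ∀ c < 6, ∀ i < n, ch θ n (2 * g) b i c = S (c * K + i - 1) := by
    intro c hc i hi
    rw [← cf_sum hpb (S (c * K + i - 1))]
    unfold ch
    apply sum_congr rfl
    intro j hj
    rw [hb1 c hc i hi j (mem_range.1 hj)]
  have hc2 : ∀ c < 6, ∀ i < n, ch θ n (2 * g) b i (6 + c) =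
      if K ≤ i then S (c * K + (i - K) - 1) else 0 := by
    intro c hc i hi
    by_cases h : K ≤ i
    · rw [if_pos h, ← cf_sum hpb (S (c * K + (i - K) - 1))]
      unfold ch
      apply sum_congr rfl
      intro j hj
      rw [hb2 c hc i hi j (mem_range.1 hj), decide_eq_true h, Bool.true_and]
    · rw [if_neg h]
      unfold ch
      apply sum_eq_zero
      intro j hj
      rw [hb2 c hc i hi j (mem_range.1 hj), decide_eq_false h, Bool.false_and]
      show (0 : F) * _ = 0
      rw [zero_mul]
  have hc3 : ∀ i < n, ¬ (K ≤ i ∧ i - K < n₂) → ch θ n (2 * g) b i 12 = 0 := by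
    intro i hi h
    unfold ch
    apply sum_eq_zero
    intro j hj
    rw [hb3 i hi j (mem_range.1 hj), if_neg (fun h' => h ⟨h'.1, h'.2.1⟩)]
    show (0 : F) * _ = 0
    rw [zero_mul]
  have hc4 : ∀ i < n₂, ch θ n (2 * g) b (K + i) 12 =
      ∑ j ∈ range η, bv (bit x (i * η + j)) * θ ^ j := by
    intro i hi
    unfold ch
    obtain ⟨l, hl⟩ := Nat.exists_eq_add_of_le hηρ
    have e1 : K + i - K = i := by omega
    have e2 : range (2 * g) = range (η + l) := by rw [← hl]
    rw [e2, sum_range_add]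
    have e3 : ∑ j ∈ range l, bv (b (n + (13 * (K + i) + 12) * (2 * g) + (η + j))) * θ ^ (η + j) = (0 : F) := by
      apply sum_eq_zero
      intro j hj
      have hj' := mem_range.1 hj
      rw [hb3 (K + i) (by omega) (η + j) (by omega), if_neg (fun h' => by omega)]
      show (0 : F) * _ = 0
      rw [zero_mul]
    rw [e3, add_zero]
    apply sum_congr rfl
    intro j hj
    have hj' := mem_range.1 hj
    rw [hb3 (K + i) (by omega) j (by omega), if_pos ⟨by omega, by omega, hj'⟩, e1]
  have hA : ∀ c : Fin 6, ac θ a n (2 * g) b c n = ∑ d : Fin K, a ^ (d : ℕ) *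
      blk (bhank η e θ S : Fin (n₂ * η) → (Fin K × Fin 6 × Fin (2 * g) → ZMod 2)) e x d c := by
    intro c
    obtain ⟨l, hl⟩ := Nat.exists_eq_add_of_le hKn
    have hwin := wn_special (θ := θ) (a := a) (n := n) (ρ := 2 * g) (b := b) two_zero
      (c := (c : ℕ)) (K := K) (fun i => S (c * K + i - 1)) hP (hc1 c c.isLt) (hc2 c c.isLt)
    rw [ac_sum]
    have hr' : range n = range (K + n₂ + l) := by rw [← hl]
    rw [hr', sum_range_add, sum_range_add]
    rw [sum_eq_zero (s := range K) (fun j hj => by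
      have := mem_range.1 hj
      rw [hc3 j (by omega) (by omega), zero_mul])]
    rw [sum_eq_zero (s := range l) (fun j hj => by
      have := mem_range.1 hj
      rw [hc3 (K + n₂ + j) (by omega) (by omega), zero_mul])]
    rw [zero_add, add_zero]
    -- the right-hand side
    have hR : ∀ d : Fin K, blk (bhank η e θ S : Fin (n₂ * η) → (Fin K × Fin 6 × Fin (2 * g) → ZMod 2))
        e x d c = ∑ i ∈ range n₂, (∑ j ∈ range η, bv (bit x (i * η + j)) * θ ^ j) *
          S (i + bpos K d c) := by
      intro d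
      have h1 : ∀ k : Fin (n₂ * η), (if x k then e (fun a' => (bhank η e θ S :
          Fin (n₂ * η) → (Fin K × Fin 6 × Fin (2 * g) → ZMod 2)) k (d, c, a')) else 0) =
          bv (bit x (k : ℕ)) * (θ ^ ((k : ℕ) % η) * S ((k : ℕ) / η + bpos K d c)) := by
        intro k
        have h2 : e (fun a' => (bhank η e θ S :
            Fin (n₂ * η) → (Fin K × Fin 6 × Fin (2 * g) → ZMod 2)) k (d, c, a')) =
            θ ^ ((k : ℕ) % η) * S ((k : ℕ) / η + bpos K d c) := by
          have h4 : (fun a' => (bhank η e θ S :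
              Fin (n₂ * η) → (Fin K × Fin 6 × Fin (2 * g) → ZMod 2)) k (d, c, a')) =
              e.symm (θ ^ ((k : ℕ) % η) * S ((k : ℕ) / η + bpos K d c)) := rfl
          rw [h4, LinearEquiv.apply_symm_apply]
        rw [h2]
        have h3 : bit x (k : ℕ) = x k := by
          unfold bit
          rw [dif_pos k.isLt]
        rw [h3]
        cases x k with
        | false =>
          show _ = (0 : F) * _
          rw [zero_mul, if_neg (by decide)]
        | true =>
          show _ = (1 : F) * _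
          rw [one_mul, if_pos rfl]
      unfold blk
      rw [sum_congr rfl (fun k _ => h1 k), ← sum_range (fun k => (bv (bit x k) : F) *
        (θ ^ (k % η) * S (k / η + bpos K d c))), sum_blocks]
      apply sum_congr rfl
      intro i _
      rw [sum_mul]
      apply sum_congr rfl
      intro j hj
      have hj' := mem_range.1 hj
      have e1 : (i * η + j) % η = j := by
        rw [Nat.add_comm, Nat.add_mul_mod_self_right, Nat.mod_eq_of_lt hj']
      have e2 : (i * η + j) / η = i := by
        rw [Nat.add_comm, Nat.add_mul_div_right _ _ (by omega), Nat.div_eq_of_lt hj', Nat.zero_add]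
      rw [e1, e2, mul_assoc]
    have hRR : ∑ d : Fin K, a ^ (d : ℕ) *
        blk (bhank η e θ S : Fin (n₂ * η) → (Fin K × Fin 6 × Fin (2 * g) → ZMod 2)) e x d c =
        ∑ i ∈ range n₂, ∑ d : Fin K, a ^ (d : ℕ) *
          ((∑ j ∈ range η, bv (bit x (i * η + j)) * θ ^ j) * S (i + bpos K d c)) := by
      rw [sum_comm]
      apply sum_congr rfl
      intro d _
      rw [hR d, mul_sum]
    rw [hRR]
    apply sum_congr rfl
    intro i hi
    have hi' := mem_range.1 hi
    rw [hc4 i hi', hwin (K + i + 1) (by omega)]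
    have e2 : min K (K + i + 1) = K := by omega
    rw [e2]
    generalize ∑ j ∈ range η, (bv (bit x (i * η + j)) : F) * θ ^ j = Z
    rw [sum_range, mul_sum]
    apply sum_congr rfl
    intro d _
    have hd := d.isLt
    have e3 : (c : ℕ) * K + (K + i + 1 - 1 - (d : ℕ)) - 1 = i + bpos K d c := by
      unfold bpos
      omega
    show _ * (a ^ (d : ℕ) * S ((c : ℕ) * K + (K + i + 1 - 1 - (d : ℕ)) - 1)) = _
    rw [e3]
    ring
  have hf : (fun c : Fin 6 => ∑ d : Fin K, a ^ (d : ℕ) *
      blk (bhank η e θ S : Fin (n₂ * η) → (Fin K × Fin 6 × Fin (2 * g) → ZMod 2)) e x d c) =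
      fun c : Fin 6 => ac θ a n (2 * g) b (c : ℕ) n := funext fun c => (hA c).symm
  rw [hf]
  rfl

end Pool.Agent.L0h2.HY
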